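import Pool.Agent.W715.BC.Defs

set_option autoImplicit false

open Classical

namespace Pool.Agent.W389.BC

open Pool.Agent.W715.BC SimpleGraph

lemma tri {V : Type} {T : SimpleGraph V} (hT : T.IsAcyclic) {a b d : V} (h1 : T.Adj a b)
    (h2 : T.Adj b d) : ¬ T.Adj a d := by
  intro h3
  have hp : (Walk.cons h1 (Walk.cons h2 Walk.nil) : T.Walk a d).IsPath := by
    simp [Walk.cons_isPath_iff, h1.ne, h2.ne, h3.ne]
  have h := (hT.subsingleton_path a d).elim ⟨_, hp⟩ (Path.singleton h3)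
  have h' := congrArg (fun p : T.Path a d => p.1.length) h
  simp [Path.singleton] at h'

lemma quad {V : Type} {T : SimpleGraph V} (hT : T.IsAcyclic) {a b b' d : V} (hne : a ≠ d)
    (h1 : T.Adj a b) (h2 : T.Adj b d) (h3 : T.Adj a b') (h4 : T.Adj b' d) : b = b' := by
  have hp : (Walk.cons h1 (Walk.cons h2 Walk.nil) : T.Walk a d).IsPath := by
    simp [Walk.cons_isPath_iff, h1.ne, h2.ne, hne]
  have hp' : (Walk.cons h3 (Walk.cons h4 Walk.nil) : T.Walk a d).IsPath := by
    simp [Walk.cons_isPath_iff, h3.ne, h4.ne, hne]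
  have h := (hT.subsingleton_path a d).elim ⟨_, hp⟩ ⟨_, hp'⟩
  have h' := congrArg (fun p : T.Path a d => p.1.support) h
  simpa using h'

lemma enum {V : Type} [Fintype V] (S : Set V) (q : ℕ) (h : S.ncard = q) :
    ∃ f : Fin q → V, Function.Injective f ∧ ∀ v, v ∈ S ↔ ∃ a, v = f a := by
  have h1 : Nat.card S = q := by rw [Nat.card_coe_set_eq, h]
  let e := Finite.equivFinOfCardEq h1
  refine ⟨fun a => (e.symm a : V), ?_, ?_⟩
  · intro a b hab
    exact e.symm.injective (Subtype.ext hab)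
  · intro v
    constructor
    · intro hv
      exact ⟨e ⟨v, hv⟩, by simp⟩
    · rintro ⟨a, rfl⟩
      exact (e.symm a).2

theorem tr2 : S_TR2 := by
  intro V _ T R hT hind c hc hadj q hq
  have hac := hT.isAcyclic
  have hcR : c ∉ R := hc
  -- every root has a neighbour, which is a non-root
  have hnb : ∀ u ∈ R, ∃ y, T.Adj u y ∧ y ∉ R := by
    intro u hu
    have huc : u ≠ c := fun h => hcR (h ▸ hu)
    obtain ⟨p⟩ := hT.connected.preconnected u c
    cases p with
    | nil => exact absurd rfl huc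
    | cons h p => exact ⟨_, h, fun hy => hind u hu _ hy h⟩
  -- and only one
  have huniq : ∀ u ∈ R, ∀ y z, y ∉ R → z ∉ R → T.Adj u y → T.Adj u z → y = z := by
    intro u hu y z hy hz h1 h2
    by_contra hne
    by_cases hyc : y = c
    · subst hyc
      exact tri hac h1.symm h2 (hadj z hz (fun h => hne h.symm))
    · by_cases hzc : z = c
      · subst hzc
        exact tri hac h2.symm h1 (hadj y hy hyc)
      · have h3 := quad hac hne h1.symm h2 (hadj y hy hyc).symm (hadj z hz hzc)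
        exact hcR (h3 ▸ hu)
  obtain ⟨s, hs⟩ : ∃ s, ({v | v ∉ R ∧ v ≠ c} : Set V).ncard = s := ⟨_, rfl⟩
  obtain ⟨x, hx, hx'⟩ := enum ({v | v ∉ R ∧ v ≠ c} : Set V) s hs
  have hxR : ∀ i, x i ∉ R := fun i => ((hx' (x i)).2 ⟨i, rfl⟩).1
  have hxc : ∀ i, x i ≠ c := fun i => ((hx' (x i)).2 ⟨i, rfl⟩).2
  have hP : ∀ i, ∃ f : Fin q → V, Function.Injective f ∧
      ∀ v, v ∈ ({u | u ∈ R ∧ T.Adj (x i) u} : Set V) ↔ ∃ a, v = f a := fun i =>
    enum _ q (hq (x i) (hxR i) (hxc i))
  choose P hP1 hP2 using hP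
  have hPR : ∀ i a, P i a ∈ R ∧ T.Adj (x i) (P i a) := fun i a => (hP2 i _).2 ⟨a, rfl⟩
  obtain ⟨w, hw1, hw2⟩ := enum ({u | u ∈ R ∧ T.Adj c u} : Set V) (rdeg T R c) rfl
  have hwR : ∀ l, w l ∈ R ∧ T.Adj c (w l) := fun l => (hw2 _).2 ⟨l, rfl⟩
  have hPinj : Function.Injective (fun p : Fin s × Fin q => P p.1 p.2) := by
    rintro ⟨i, a⟩ ⟨j, b⟩ h
    simp only at h
    have h1 : x i = x j := huniq (P i a) (hPR i a).1 _ _ (hxR i) (hxR j) (hPR i a).2.symm
      (by rw [h]; exact (hPR j b).2.symm)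
    have h2 := hx h1
    subst h2
    rw [hP1 i h]
  have hPw : ∀ i a l, P i a ≠ w l := by
    intro i a l h
    exact hxc i (huniq (P i a) (hPR i a).1 _ _ (hxR i) hcR (hPR i a).2.symm
      (by rw [h]; exact (hwR l).2.symm))
  have hcov : ∀ v, v = c ∨ (∃ i, v = x i) ∨ (∃ i a, v = P i a) ∨ ∃ l, v = w l := by
    intro v
    by_cases hv : v ∈ R
    · obtain ⟨y, hy, hyR⟩ := hnb v hv
      by_cases hyc : y = c
      · subst hyc
        right; right; right
        exact (hw2 v).1 ⟨hv, hy.symm⟩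
      · obtain ⟨i, rfl⟩ := (hx' y).1 ⟨hyR, hyc⟩
        right; right; left
        exact ⟨i, (hP2 i v).1 ⟨hv, hy.symm⟩⟩
    · by_cases hvc : v = c
      · exact Or.inl hvc
      · exact Or.inr (Or.inl ((hx' v).1 ⟨hv, hvc⟩))
  have hcard : Rᶜ.ncard = s + 1 := by
    have h1 : Rᶜ = insert c ({v | v ∉ R ∧ v ≠ c} : Set V) := by
      ext v
      simp only [Set.mem_compl_iff, Set.mem_insert_iff, Set.mem_ofPred_eq]
      constructor
      · intro h
        by_cases hvc : v = c
        · exact Or.inl hvc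
        · exact Or.inr ⟨h, hvc⟩
      · rintro (h | h)
        · rw [h]; exact hcR
        · exact h.1
    rw [h1, Set.ncard_insert_of_notMem (by simp), hs]
  refine ⟨s, rdeg T R c, ⟨c, x, P, w, hcR, hxR, fun i a => (hPR i a).1, fun l => (hwR l).1, hx, hxc,
    hPinj, hw1, hPw, hcov, ?_⟩, ?_, rfl, ?_⟩
  · -- edges
    have hone : ∀ u v, T.Adj u v → u ∉ R → v ∈ R → (∃ i a, u = x i ∧ v = P i a) ∨
        ∃ l, u = c ∧ v = w l := by
      intro u v huv hu hv
      by_cases huc : u = c
      · subst huc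
        obtain ⟨l, hl⟩ := (hw2 v).1 ⟨hv, huv⟩
        exact Or.inr ⟨l, rfl, hl⟩
      · obtain ⟨i, rfl⟩ := (hx' u).1 ⟨hu, huc⟩
        obtain ⟨a, ha⟩ := (hP2 i v).1 ⟨hv, huv⟩
        exact Or.inl ⟨i, a, rfl, ha⟩
    intro u v huv
    by_cases hu : u ∈ R
    · by_cases hv : v ∈ R
      · exact absurd huv (hind u hu v hv)
      · rcases hone v u huv.symm hv hu with ⟨i, a, h1, h2⟩ | ⟨l, h1, h2⟩
        · exact Or.inr (Or.inl ⟨i, a, Or.inr ⟨h1, h2⟩⟩)
        · exact Or.inr (Or.inr ⟨l, Or.inr ⟨h1, h2⟩⟩)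
    · by_cases hv : v ∈ R
      · rcases hone u v huv hu hv with ⟨i, a, h1, h2⟩ | ⟨l, h1, h2⟩
        · exact Or.inr (Or.inl ⟨i, a, Or.inl ⟨h1, h2⟩⟩)
        · exact Or.inr (Or.inr ⟨l, Or.inl ⟨h1, h2⟩⟩)
      · left
        by_cases huc : u = c
        · obtain ⟨i, hi⟩ := (hx' v).1 ⟨hv, fun h => huv.ne (huc.trans h.symm)⟩
          exact ⟨i, Or.inl ⟨huc, hi⟩⟩
        · by_cases hvc : v = c
          · obtain ⟨i, hi⟩ := (hx' u).1 ⟨hu, huc⟩
            exact ⟨i, Or.inr ⟨hvc, hi⟩⟩
          · exact absurd huv (tri hac (hadj u hu huc).symm (hadj v hv hvc))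
  · exact hcard.symm
  · -- the density
    have h1 : ({e | e ∈ T.edgeSet ∧ ∃ v ∈ Rᶜ, v ∈ e} : Set (Sym2 V)) = T.edgeSet := by
      ext e
      constructor
      · exact fun h => h.1
      · intro h
        refine ⟨h, ?_⟩
        induction e using Sym2.ind with
        | _ u v =>
          rw [mem_edgeSet] at h
          by_cases hu : u ∈ R
          · exact ⟨v, fun hv => hind u hu v hv h, by simp⟩
          · exact ⟨u, hu, by simp⟩
    have h2 : T.edgeSet.ncard + 1 = Fintype.card V := by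
      have := hT.card_edgeFinset
      rw [← this, ← coe_edgeFinset, Set.ncard_coe_finset]
    have h3 : Fintype.card V = (1 + s) + (s * q + rdeg T R c) := by
      let φ : (Unit ⊕ Fin s) ⊕ ((Fin s × Fin q) ⊕ Fin (rdeg T R c)) → V :=
        Sum.elim (Sum.elim (fun _ => c) x) (Sum.elim (fun p => P p.1 p.2) w)
      have hφ : Function.Bijective φ := by
        constructor
        · refine Function.Injective.sumElim (Function.Injective.sumElim ?_ hx ?_)
            (Function.Injective.sumElim hPinj hw1 ?_) ?_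
          · intro a b _; rfl
          · intro a b h; exact hxc b h.symm
          · intro a b; exact hPw _ _ _
          · rintro (a | a) (b | b) h
            · exact hcR (by rw [show c = P b.1 b.2 from h]; exact (hPR _ _).1)
            · exact hcR (by rw [show c = w b from h]; exact (hwR _).1)
            · exact hxR a (by rw [show x a = P b.1 b.2 from h]; exact (hPR _ _).1)
            · exact hxR a (by rw [show x a = w b from h]; exact (hwR _).1)
        · intro v
          rcases hcov v with h | ⟨i, h⟩ | ⟨i, a, h⟩ | ⟨l, h⟩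
          · exact ⟨Sum.inl (Sum.inl ()), h.symm⟩
          · exact ⟨Sum.inl (Sum.inr i), h.symm⟩
          · exact ⟨Sum.inr (Sum.inl (i, a)), h.symm⟩
          · exact ⟨Sum.inr (Sum.inr l), h.symm⟩
      rw [← Fintype.card_of_bijective hφ]
      simp
    have h4 : (T.edgeSet.ncard : ℝ) = s * (q + 1) + rdeg T R c := by
      have h5 : T.edgeSet.ncard = s * (q + 1) + rdeg T R c := by
        rw [h3] at h2
        have : s * (q + 1) = s * q + s := by ring
        omega
      rw [h5]; push_cast; ring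
    unfold dens
    rw [h1, hcard, h4]
    push_cast
    field_simp

end Pool.Agent.W389.BC
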