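import Pool.Agent.W715.BC.Defs

set_option autoImplicit false

open Classical

namespace Pool.Agent.W389.BC

open Pool.Agent.W715.BC SimpleGraph

theorem tr3 : S_TR3 := by
  intro V _ T R s q s' hLab t n G hG
  obtain ⟨c0, x0, P0, w0, hc0, hx0, hP0, hw0, ix0, hxc0, iP0, iw0, hPw0, hcov, hedge⟩ := hLab
  obtain ⟨c, x, P, w, ic, ix, iP, iw, hcx, hcP, hcw, hxP, hxw, hPw, acx, acw, aPx⟩ := hG
  have hsp : ∀ p : {p : V × ℕ // p.2 < t ∧ (p.1 ∈ R → p.2 = 0)}, ∃ y : Fin n,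
      (p.1.1 = c0 ∧ y = c ⟨p.1.2, p.2.1⟩) ∨ (∃ i, p.1.1 = x0 i ∧ y = x i ⟨p.1.2, p.2.1⟩) ∨
      (∃ i a, p.1.1 = P0 i a ∧ y = P i a) ∨ (∃ l, p.1.1 = w0 l ∧ y = w l) := by
    intro p
    rcases hcov p.1.1 with h | ⟨i, h⟩ | ⟨i, a, h⟩ | ⟨l, h⟩
    · exact ⟨_, Or.inl ⟨h, rfl⟩⟩
    · exact ⟨_, Or.inr (Or.inl ⟨i, h, rfl⟩)⟩
    · exact ⟨_, Or.inr (Or.inr (Or.inl ⟨i, a, h, rfl⟩))⟩
    · exact ⟨_, Or.inr (Or.inr (Or.inr ⟨l, h, rfl⟩))⟩
  choose f hf using hsp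
  have ecP : ∀ i a, c0 ≠ P0 i a := fun i a h => hc0 (h ▸ hP0 i a)
  have ecw : ∀ l, c0 ≠ w0 l := fun l h => hc0 (h ▸ hw0 l)
  have exP : ∀ i j a, x0 i ≠ P0 j a := fun i j a h => hx0 i (h ▸ hP0 j a)
  have exw : ∀ i l, x0 i ≠ w0 l := fun i l h => hx0 i (h ▸ hw0 l)
  have hfc : ∀ p, p.1.1 = c0 → f p = c ⟨p.1.2, p.2.1⟩ := by
    intro p hp
    rcases hf p with ⟨h, e⟩ | ⟨i, h, e⟩ | ⟨i, a, h, e⟩ | ⟨l, h, e⟩
    · exact e
    · exact absurd (h.symm.trans hp) (hxc0 i)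
    · exact absurd (hp.symm.trans h) (ecP i a)
    · exact absurd (hp.symm.trans h) (ecw l)
  have hfx : ∀ p i, p.1.1 = x0 i → f p = x i ⟨p.1.2, p.2.1⟩ := by
    intro p i hp
    rcases hf p with ⟨h, e⟩ | ⟨j, h, e⟩ | ⟨j, a, h, e⟩ | ⟨l, h, e⟩
    · exact absurd (hp.symm.trans h) (hxc0 i)
    · rw [e, ix0 (hp.symm.trans h)]
    · exact absurd (hp.symm.trans h) (exP i j a)
    · exact absurd (hp.symm.trans h) (exw i l)
  have hfP : ∀ p i a, p.1.1 = P0 i a → f p = P i a := by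
    intro p i a hp
    rcases hf p with ⟨h, e⟩ | ⟨j, h, e⟩ | ⟨j, b, h, e⟩ | ⟨l, h, e⟩
    · exact absurd (h.symm.trans hp) (ecP i a)
    · exact absurd (h.symm.trans hp) (exP j i a)
    · have h1 : ((i, a) : Fin s × Fin q) = (j, b) := iP0 (hp.symm.trans h)
      rw [Prod.mk.injEq] at h1
      rw [e, h1.1, h1.2]
    · exact absurd (hp.symm.trans h) (hPw0 i a l)
  have hfw : ∀ p l, p.1.1 = w0 l → f p = w l := by
    intro p l hp
    rcases hf p with ⟨h, e⟩ | ⟨j, h, e⟩ | ⟨j, b, h, e⟩ | ⟨k, h, e⟩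
    · exact absurd (h.symm.trans hp) (ecw l)
    · exact absurd (h.symm.trans hp) (exw j l)
    · exact absurd (h.symm.trans hp) (hPw0 j b l)
    · rw [e, iw0 (hp.symm.trans h)]
  refine ⟨f, ?_, ?_⟩
  · intro p p' hpp
    have key : ∀ p p' : {p : V × ℕ // p.2 < t ∧ (p.1 ∈ R → p.2 = 0)},
        p.1.1 = p'.1.1 → p.1.2 = p'.1.2 → p = p' := fun p p' h1 h2 =>
      Subtype.ext (Prod.ext h1 h2)
    rcases hf p with ⟨h, e⟩ | ⟨i, h, e⟩ | ⟨i, a, h, e⟩ | ⟨l, h, e⟩ <;>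
    rcases hf p' with ⟨h', e'⟩ | ⟨i', h', e'⟩ | ⟨i', a', h', e'⟩ | ⟨l', h', e'⟩ <;>
    rw [e, e'] at hpp
    · have := ic hpp
      exact key _ _ (h.trans h'.symm) (by simpa using this)
    · exact absurd hpp (hcx _ _ _)
    · exact absurd hpp (hcP _ _ _)
    · exact absurd hpp (hcw _ _)
    · exact absurd hpp.symm (hcx _ _ _)
    · have h1 : ((i, ⟨p.1.2, p.2.1⟩) : Fin s × Fin t) = (i', ⟨p'.1.2, p'.2.1⟩) := ix hpp
      rw [Prod.mk.injEq] at h1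
      refine key _ _ ?_ (by simpa using h1.2)
      rw [h, h', h1.1]
    · exact absurd hpp (hxP _ _ _ _)
    · exact absurd hpp (hxw _ _ _)
    · exact absurd hpp.symm (hcP _ _ _)
    · exact absurd hpp.symm (hxP _ _ _ _)
    · have h1 : ((i, a) : Fin s × Fin q) = (i', a') := iP hpp
      rw [Prod.mk.injEq] at h1
      refine key _ _ ?_ ?_
      · rw [h, h', h1.1, h1.2]
      · rw [p.2.2 (h ▸ hP0 i a), p'.2.2 (h' ▸ hP0 i' a')]
    · exact absurd hpp (hPw _ _ _)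
    · exact absurd hpp.symm (hcw _ _)
    · exact absurd hpp.symm (hxw _ _ _)
    · exact absurd hpp.symm (hPw _ _ _)
    · have h1 := iw hpp
      refine key _ _ ?_ ?_
      · rw [h, h', h1]
      · rw [p.2.2 (h ▸ hw0 l), p'.2.2 (h' ▸ hw0 l')]
  · have key : ∀ a b : {p : V × ℕ // p.2 < t ∧ (p.1 ∈ R → p.2 = 0)},
        T.Adj a.1.1 b.1.1 ∧ (a.1.2 = b.1.2 ∨ a.1.1 ∈ R ∨ b.1.1 ∈ R) → G.Adj (f a) (f b) := by
      rintro a b ⟨hT, h3⟩
      rcases hedge _ _ hT with ⟨i, ⟨h1, h2⟩ | ⟨h2, h1⟩⟩ | ⟨i, k, ⟨h1, h2⟩ | ⟨h2, h1⟩⟩ |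
        ⟨l, ⟨h1, h2⟩ | ⟨h2, h1⟩⟩
      · have h4 : a.1.2 = b.1.2 := by
          rcases h3 with h | h | h
          · exact h
          · rw [h1] at h; exact absurd h hc0
          · rw [h2] at h; exact absurd h (hx0 i)
        rw [hfc a h1, hfx b i h2]
        have h5 : (⟨a.1.2, a.2.1⟩ : Fin t) = ⟨b.1.2, b.2.1⟩ := Fin.ext h4
        rw [h5]
        exact acx _ _
      · have h4 : a.1.2 = b.1.2 := by
          rcases h3 with h | h | h
          · exact h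
          · rw [h1] at h; exact absurd h (hx0 i)
          · rw [h2] at h; exact absurd h hc0
        rw [hfc b h2, hfx a i h1]
        have h5 : (⟨a.1.2, a.2.1⟩ : Fin t) = ⟨b.1.2, b.2.1⟩ := Fin.ext h4
        rw [h5]
        exact (acx _ _).symm
      · rw [hfx a i h1, hfP b i k h2]
        exact (aPx _ _ _).symm
      · rw [hfx b i h2, hfP a i k h1]
        exact aPx _ _ _
      · rw [hfc a h1, hfw b l h2]
        exact acw _ _
      · rw [hfc b h2, hfw a l h1]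
        exact (acw _ _).symm
    intro a b hab
    rw [SimpleGraph.fromRel_adj] at hab
    rcases hab.2 with h | h
    · exact key a b h
    · exact (key b a h).symm

end Pool.Agent.W389.BC
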