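import Pool.Agent.W921.VP.DefsC

set_option autoImplicit false

namespace Pool.Agent.W389.VPMAR

open FirstOrder Set
open FirstOrder.Language (Theory BoundedFormula)
open Pool.Agent.W921.VP

variable {L : FirstOrder.Language.{0, 0}}

lemma exists_closed (T : L.Theory) : ∀ (m : ℕ) (φ : Fm T m), ∃ ψ : Fm T 0,
    ∀ (M : Type) (S : L.Structure M), ψ.Sat S Fin.elim0 ↔ ∃ a : Fin m → M, φ.Sat S a := by
  intro m
  induction m with
  | zero =>
    intro φ
    refine ⟨φ, fun M S => ⟨fun h => ⟨Fin.elim0, h⟩, ?_⟩⟩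
    rintro ⟨a, ha⟩
    have : a = Fin.elim0 := Subsingleton.elim _ _
    rw [this] at ha
    exact ha
  | succ m ih =>
    intro φ
    obtain ⟨ψ, hψ⟩ := ih (Fm.not (Fm.all (Fm.not φ)))
    refine ⟨ψ, fun M S => ?_⟩
    rw [hψ M S]
    constructor
    · rintro ⟨a, ha⟩
      have h1 : ¬ ∀ x : M, ¬ φ.Sat S (Fin.snoc a x) := ha
      push Not at h1
      obtain ⟨x, hx⟩ := h1
      exact ⟨_, hx⟩
    · rintro ⟨a, ha⟩
      refine ⟨Fin.init a, ?_⟩
      show ¬ ∀ x : M, ¬ φ.Sat S (Fin.snoc (Fin.init a) x)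
      intro h
      apply h (a (Fin.last m))
      rw [Fin.snoc_init_self]
      exact ha

lemma twA_refl (hs : S_SW) {M : Type} (S : L.Structure M) (x : M) : TwA S x x :=
  fun R => ((hs L M S R.1 R.2).1).refl x

lemma twA_symm (hs : S_SW) {M : Type} (S : L.Structure M) {x y : M} (h : TwA S x y) :
    TwA S y x := fun R => ((hs L M S R.1 R.2).1).symm (h R)

lemma twA_trans (hs : S_SW) {M : Type} (S : L.Structure M) {x y z : M} (h : TwA S x y)
    (h' : TwA S y z) : TwA S x z := fun R => ((hs L M S R.1 R.2).1).trans (h R) (h' R)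

/-- a large finite bound detects the size -/
lemma size_eq (K : ℕ) (A B : ℕ∞) (hA : A ≠ ⊤ → A < K) (hB : B ≠ ⊤ → B < K)
    (h : ∀ l ≤ K, ((l : ℕ∞) ≤ A ↔ (l : ℕ∞) ≤ B)) : A = B := by
  by_cases hAt : A = ⊤
  · by_cases hBt : B = ⊤
    · rw [hAt, hBt]
    · have h1 := (h K le_rfl).1 (by rw [hAt]; exact le_top)
      exact absurd (hB hBt) (not_lt.2 h1)
  · by_cases hBt : B = ⊤
    · have h1 := (h K le_rfl).2 (by rw [hBt]; exact le_top)
      exact absurd (hA hAt) (not_lt.2 h1)
    · obtain ⟨m, rfl⟩ := ENat.ne_top_iff_exists.1 hAt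
      obtain ⟨k, rfl⟩ := ENat.ne_top_iff_exists.1 hBt
      have hm : m < K := by exact_mod_cast hA hAt
      have hk : k < K := by exact_mod_cast hB hBt
      have h1 : m ≤ k := by exact_mod_cast (h m hm.le).1 le_rfl
      have h2 : k ≤ m := by exact_mod_cast (h k hk.le).2 le_rfl
      rw [le_antisymm h1 h2]

theorem task (hs : S_SW) (h2 : S_AT2) (hf : S_FOT) (hn : S_NI) (hz : S_SIZ) : S_MAR := by
  intro L hL hrel T hcomp hfin hnon S S' hS hS' hE
  have _hrel := hrel
  obtain ⟨n, a, hNa, haa, hca⟩ := hnon S hS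
  obtain ⟨n', b, hNb, hbb, hcb⟩ := hnon S' hS'
  set A : Fin n → ℕ∞ := fun i => Set.encard {x | TwA S x (a i)} with hA
  set B : Fin n' → ℕ∞ := fun i => Set.encard {x | TwA S' x (b i)} with hB
  obtain ⟨K, hK⟩ : ∃ K, K = 1 + ∑ i, (A i).toNat + ∑ j, (B j).toNat := ⟨_, rfl⟩
  have hAK : ∀ i, A i ≠ ⊤ → A i < K := by
    intro i hi
    obtain ⟨m, hm⟩ := ENat.ne_top_iff_exists.1 hi
    have h3 : (A i).toNat ≤ ∑ i, (A i).toNat :=
      Finset.single_le_sum (f := fun i => (A i).toNat) (fun _ _ => Nat.zero_le _)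
        (Finset.mem_univ i)
    rw [← hm, ENat.toNat_natCast] at h3
    rw [← hm]
    have : m < K := by omega
    exact_mod_cast this
  have hBK : ∀ i, B i ≠ ⊤ → B i < K := by
    intro i hi
    obtain ⟨m, hm⟩ := ENat.ne_top_iff_exists.1 hi
    have h3 : (B i).toNat ≤ ∑ i, (B i).toNat :=
      Finset.single_le_sum (f := fun i => (B i).toNat) (fun _ _ => Nat.zero_le _)
        (Finset.mem_univ i)
    rw [← hm, ENat.toNat_natCast] at h3
    rw [← hm]
    have : m < K := by omega
    exact_mod_cast this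
  obtain ⟨a', hsame, hsize⟩ := hz L hL hrel T S S' hS hS' (hfin S hS) (hfin S' hS') hE n a hNa haa
    hca K
  obtain ⟨hni, htw⟩ := hn L ℕ ℕ S S' n a a' hsame
  have hNa' : ∀ i, NonIso S' (a' i) := fun i => (hni i).1 (hNa i)
  have haa' : ∀ i j, i ≠ j → ¬ TwA S' (a' i) (a' j) := fun i j hij h =>
    haa i j hij ((htw i j).2 h)
  -- the new tuple covers all classes
  have hca' : ∀ y, NonIso S' y → ∃ i, TwA S' y (a' i) := by
    intro y hy
    by_contra hcon
    push Not at hcon
    let a'' : Fin (n + 1) → ℕ := Fin.snoc a' y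
    let r : Set (L.BoundedFormula Empty (n + 1)) :=
      {φ | @BoundedFormula.Realize L ℕ S' Empty (n + 1) φ Empty.elim a''}
    have hr : IsTp T r := ⟨S', a'', hS', rfl⟩
    obtain ⟨ψ, hψ⟩ := exists_closed T (n + 1) (Fm.tp r hr id)
    have h3 : ψ.Sat S' Fin.elim0 := by
      rw [hψ ℕ S']
      exact ⟨a'', fun φ hφ => hφ⟩
    have h4 : ψ.Sat S Fin.elim0 := (hE ψ).2 h3
    rw [hψ ℕ S] at h4
    obtain ⟨a0, ha0⟩ := h4
    have h5 : ∀ φ ∈ r, @BoundedFormula.Realize L ℕ S Empty (n + 1) φ Empty.elim a0 := ha0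
    have h6 : SameTp S' S a'' a0 := by
      intro φ
      constructor
      · intro h; exact h5 φ h
      · intro h
        by_contra h7
        have h8 : φ.not ∈ r := by
          show @BoundedFormula.Realize L ℕ S' Empty (n + 1) φ.not Empty.elim a''
          rw [BoundedFormula.realize_not]
          exact h7
        have h9 : ¬ @BoundedFormula.Realize L ℕ S Empty (n + 1) φ Empty.elim a0 := h5 _ h8
        exact h9 h
    obtain ⟨h7, h8⟩ := hn L ℕ ℕ S' S (n + 1) a'' a0 h6
    have h9 : ∀ i, NonIso S' (a'' i) := by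
      intro i
      refine Fin.lastCases ?_ (fun j => ?_) i
      · show NonIso S' ((Fin.snoc a' y : Fin (n + 1) → ℕ) (Fin.last n))
        rw [Fin.snoc_last]; exact hy
      · show NonIso S' ((Fin.snoc a' y : Fin (n + 1) → ℕ) j.castSucc)
        rw [Fin.snoc_castSucc]; exact hNa' j
    have h10 : ∀ i j, i ≠ j → ¬ TwA S' (a'' i) (a'' j) := by
      intro i j
      refine Fin.lastCases ?_ (fun i' => ?_) i
      · refine Fin.lastCases ?_ (fun j' => ?_) j
        · intro h; exact absurd rfl h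
        · intro _
          show ¬ TwA S' ((Fin.snoc a' y : Fin (n + 1) → ℕ) (Fin.last n))
            ((Fin.snoc a' y : Fin (n + 1) → ℕ) j'.castSucc)
          rw [Fin.snoc_last, Fin.snoc_castSucc]
          exact hcon j'
      · refine Fin.lastCases ?_ (fun j' => ?_) j
        · intro _
          show ¬ TwA S' ((Fin.snoc a' y : Fin (n + 1) → ℕ) i'.castSucc)
            ((Fin.snoc a' y : Fin (n + 1) → ℕ) (Fin.last n))
          rw [Fin.snoc_last, Fin.snoc_castSucc]
          exact fun h => hcon i' (twA_symm hs S' h)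
        · intro hij
          show ¬ TwA S' ((Fin.snoc a' y : Fin (n + 1) → ℕ) i'.castSucc)
            ((Fin.snoc a' y : Fin (n + 1) → ℕ) j'.castSucc)
          rw [Fin.snoc_castSucc, Fin.snoc_castSucc]
          exact haa' i' j' (fun h => hij (by rw [h]))
    have h11 : ∀ i, ∃ k, TwA S (a0 i) (a k) := fun i => hca _ ((h7 i).1 (h9 i))
    choose g hg using h11
    obtain ⟨i, j, hij, hgij⟩ := Fintype.exists_ne_map_eq_of_card_lt g (by simp)
    apply h10 i j hij
    rw [h8 i j]
    refine twA_trans hs S (hg i) ?_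
    rw [hgij]
    exact twA_symm hs S (hg j)
  have hsz : ∀ i, Set.encard {x | TwA S x (a i)} = Set.encard {x | TwA S' x (a' i)} := by
    intro i
    obtain ⟨j, hj⟩ := hcb (a' i) (hNa' i)
    have h3 : ({x | TwA S' x (a' i)} : Set ℕ) = {x | TwA S' x (b j)} := by
      ext x
      exact ⟨fun h => twA_trans hs S' h hj, fun h => twA_trans hs S' h (twA_symm hs S' hj)⟩
    refine size_eq K _ _ (hAK i) ?_ (hsize i)
    rw [h3]
    exact hBK j
  exact h2 L hL hrel S S' (hfin S hS) (hfin S' hS') n a a' haa haa' hca hca' hsz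
    (hf L hrel S S' n a a' (hfin S hS) (hfin S' hS') hsame)

end Pool.Agent.W389.VPMAR
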